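import Mathlib
import Pool.Agent.N89.HG.Stm
import Pool.Agent.N403.HX.FCH
import Pool.Agent.N568.HX.NF
import Pool.Agent.N572.HX.TSZ

/-!
# HG/FCHG: the density theorem over `k(t_1, …, t_n)` for an arbitrary group

Project HG (helper89); this file by helper433, after `Pool/Agent/N403/HX/FCH.lean` (helper403).
-/

set_option autoImplicit false

namespace Pool.Agent.N433.HG

open Polynomial Pool.Agent.N89.HX Pool.Agent.N89.HG
open Pool.Agent.N403.HX (az aeval_az map_az filt Fl td_eval₂ td_int sp sz cnt)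

section general

variable {A A' O : Type} [CommRing A] [CommRing A'] [CommRing O]

/-- a polynomial with given coefficients -/
theorem bp_of {m B : ℕ} (c : Fin m → A[X]) (hB : ∀ i, (c i).natDegree ≤ B) :
    (X ^ m + ∑ i : Fin m, C (c i) * X ^ (i : ℕ) : A[X][X]) =
      bp (fun i (j : Fin (B + 1)) => (c i).coeff j) := by
  unfold bp
  refine congrArg (fun t => X ^ m + t) ?_
  refine Finset.sum_congr rfl fun i _ => ?_
  refine congrArg (fun t => C t * X ^ (i : ℕ)) ?_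
  rw [Fin.sum_univ_eq_sum_range (fun j => C ((c i).coeff j) * X ^ j) (B + 1)]
  exact as_sum_range_C_mul_X_pow' _ (Nat.lt_succ_of_le (hB i))

theorem pt_map {k : ℕ} (φ : A →+* A') (y v : Fin k → A) (j : Fin k) :
    (pt y v j).map φ = pt (fun j => φ (y j)) (fun j => φ (v j)) j := by
  unfold pt
  simp

/-- the values of the coefficients on a line -/
theorem ev_map {k e : ℕ} (ψ : O →+* A) (φ : A →+* A') (h : Fin (e + 1) → MvPolynomial (Fin k) O)
    (y v : Fin k → A) (i : Fin (e + 1)) :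
    (ev ((C : A →+* A[X]).comp ψ) h (pt y v) i).map φ =
      ev ((C : A' →+* A'[X]).comp (φ.comp ψ)) h (pt (fun j => φ (y j)) (fun j => φ (v j))) i := by
  unfold ev
  rw [← coe_mapRingHom, MvPolynomial.eval₂_comp_left]
  congr 1
  · ext a : 1
    simp
  · funext j
    exact pt_map φ y v j

theorem disc_map {k e : ℕ} (ψ : O →+* A) (φ : A →+* A') (h : Fin (e + 1) → MvPolynomial (Fin k) O)
    (y v : Fin k → A) (D : MvPolynomial (Fin (e + 1)) ℤ) :
    (az (ev ((C : A →+* A[X]).comp ψ) h (pt y v)) D).map φ =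
      az (ev ((C : A' →+* A'[X]).comp (φ.comp ψ)) h
        (pt (fun j => φ (y j)) (fun j => φ (v j)))) D := by
  rw [← coe_mapRingHom, map_az]
  congr 1
  funext i
  exact ev_map ψ φ h y v i

end general

section generic

variable {O F Ω : Type} [CommRing O] [Field F] [Field Ω] [Algebra F Ω] {e k : ℕ}

/-- the ring of the coordinates of the lines -/
abbrev MM (F : Type) [Field F] (k e : ℕ) : Type := MvPolynomial (Fin (k + k) ⊕ Fin e) F

/-- the generic line -/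
noncomputable def yg (F : Type) [Field F] (k e : ℕ) (j : Fin k) : MM F k e :=
  MvPolynomial.X (Sum.inl (Fin.castAdd k j))

noncomputable def vg (F : Type) [Field F] (k e : ℕ) (j : Fin k) : MM F k e :=
  MvPolynomial.X (Sum.inl (Fin.natAdd k j))

/-- the structure map -/
noncomputable def st (φ : O →+* F) (k e : ℕ) : O →+* MM F k e := MvPolynomial.C.comp φ

/-- the coefficients of the resolvent on the generic line -/
noncomputable def cc {n : ℕ} (φ : O →+* F) (R : Fin n → MvPolynomial (Fin k ⊕ Fin e) O)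
    (i : Fin n) : (MM F k e)[X] :=
  MvPolynomial.eval₂ ((C : MM F k e →+* (MM F k e)[X]).comp (st φ k e))
    (Sum.elim (pt (yg F k e) (vg F k e)) (fun i => C (MvPolynomial.X (Sum.inr i)))) (R i)

/-- the discriminant on the generic line -/
noncomputable def dD (φ : O →+* F) (h : Fin (e + 1) → MvPolynomial (Fin k) O)
    (D : MvPolynomial (Fin (e + 1)) ℤ) : (MM F k e)[X] :=
  az (ev ((C : MM F k e →+* (MM F k e)[X]).comp (st φ k e)) h (pt (yg F k e) (vg F k e))) D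

theorem pt_fl (j : Fin k) : Fl 1 (pt (yg F k e) (vg F k e) j) := by
  unfold pt
  refine Fl.add (Fl.C (by simp [yg])) ?_
  refine ⟨?_, fun l => ?_⟩
  · exact (natDegree_C_mul_le _ _).trans natDegree_X_le
  · rw [coeff_C_mul_X]
    split_ifs
    · simp [vg]
    · simp

theorem st_fl (φ : O →+* F) (s : O) :
    Fl 0 (((C : MM F k e →+* (MM F k e)[X]).comp (st φ k e)) s) := by
  rw [RingHom.comp_apply]
  refine Fl.C ?_
  unfold st
  simp

theorem cc_fl {n : ℕ} (φ : O →+* F) (R : Fin n → MvPolynomial (Fin k ⊕ Fin e) O) (i : Fin n) :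
    Fl ((R i).totalDegree) (cc φ R i) := by
  have h := Fl.eval₂ (k := F) (τ := Fin (k + k) ⊕ Fin e)
    ((C : MM F k e →+* (MM F k e)[X]).comp (st φ k e)) (st_fl φ)
    (Sum.elim (pt (yg F k e) (vg F k e)) (fun i => C (MvPolynomial.X (Sum.inr i)))) 1
    (fun s => by
      rcases s with s | s
      · exact pt_fl s
      · exact Fl.C (by simp)) (R i)
  rw [mul_one] at h
  exact h

theorem dD_fl (φ : O →+* F) (h : Fin (e + 1) → MvPolynomial (Fin k) O)
    (D : MvPolynomial (Fin (e + 1)) ℤ) {dh : ℕ} (hh : ∀ i, (h i).totalDegree ≤ dh) :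
    Fl (D.totalDegree * dh) (dD φ h D) := by
  unfold dD az
  refine Fl.eval₂ _ (fun s => ?_) _ _ (fun s => ?_) _
  · have h : Int.castRingHom (MM F k e)[X] s = C (s : MM F k e) := by simp
    rw [h]
    exact Fl.C (td_int s)
  · have h1 := Fl.eval₂ (k := F) (τ := Fin (k + k) ⊕ Fin e)
      ((C : MM F k e →+* (MM F k e)[X]).comp (st φ k e)) (st_fl φ)
      (pt (yg F k e) (vg F k e)) 1 pt_fl (h s)
    rw [mul_one] at h1
    exact h1.mono (hh s)

theorem sp_st (φ : O →+* F) (y v : Fin k → Ω) (ω : Fin e → Ω) :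
    (sp F y v ω).comp (st φ k e) = (algebraMap F Ω).comp φ := by
  ext a
  simp [sp, st]

theorem sp_yg (y v : Fin k → Ω) (ω : Fin e → Ω) (j : Fin k) : sp F y v ω (yg F k e j) = y j := by
  unfold sp yg
  rw [MvPolynomial.eval₂Hom_X', Sum.elim_inl, Fin.append_left]

theorem sp_vg (y v : Fin k → Ω) (ω : Fin e → Ω) (j : Fin k) : sp F y v ω (vg F k e j) = v j := by
  unfold sp vg
  rw [MvPolynomial.eval₂Hom_X', Sum.elim_inl, Fin.append_right]

theorem cc_map {n : ℕ} (φ : O →+* F) (R : Fin n → MvPolynomial (Fin k ⊕ Fin e) O)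
    (y v : Fin k → Ω) (ω : Fin e → Ω) (i : Fin n) : (cc φ R i).map (sp F y v ω) =
      MvPolynomial.eval₂ ((C : Ω →+* Polynomial Ω).comp ((algebraMap F Ω).comp φ))
        (Sum.elim (pt y v) (fun i => C (ω i))) (R i) := by
  unfold cc
  rw [← coe_mapRingHom, MvPolynomial.eval₂_comp_left]
  congr 1
  · rw [← sp_st (k := k) (e := e) φ y v ω]
    ext a : 1
    simp
  · funext s
    rcases s with s | s
    · simp only [Function.comp_apply, Sum.elim_inl, coe_mapRingHom]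
      rw [pt_map]
      unfold pt
      simp only [sp_yg, sp_vg]
    · simp only [Function.comp_apply, Sum.elim_inr, coe_mapRingHom, map_C]
      unfold sp
      rw [MvPolynomial.eval₂Hom_X', Sum.elim_inr]

theorem dD_map (φ : O →+* F) (h : Fin (e + 1) → MvPolynomial (Fin k) O)
    (D : MvPolynomial (Fin (e + 1)) ℤ) (y v : Fin k → Ω) (ω : Fin e → Ω) :
    (dD φ h D).map (sp F y v ω) =
      az (ev ((C : Ω →+* Polynomial Ω).comp ((algebraMap F Ω).comp φ)) h (pt y v)) D := by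
  unfold dD
  rw [disc_map, sp_st]
  congr 2
  · congr 1
    · funext j
      exact sp_yg y v ω j
    · funext j
      exact sp_vg y v ω j

/-- the value of a polynomial in the coefficients of the resolvent -/
noncomputable def dd {n B : ℕ} (φ : O →+* F) (R : Fin n → MvPolynomial (Fin k ⊕ Fin e) O)
    (Δ : MvPolynomial (Fin n × Fin (B + 1)) ℤ) : MM F k e :=
  az (fun ij => (cc φ R ij.1).coeff ij.2) Δ

theorem dd_td {n B : ℕ} (φ : O →+* F) (R : Fin n → MvPolynomial (Fin k ⊕ Fin e) O)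
    (Δ : MvPolynomial (Fin n × Fin (B + 1)) ℤ)
    (hB : ∀ i, Fl B (cc φ R i)) : (dd φ R Δ).totalDegree ≤ Δ.totalDegree * B := by
  have h1 : ∀ s : ℤ, (Int.castRingHom (MM F k e) s).totalDegree ≤ 0 := by
    intro s
    rw [eq_intCast]
    exact td_int s
  have h2 : ∀ s : Fin n × Fin (B + 1),
      ((cc φ R s.1).coeff (s.2 : ℕ)).totalDegree ≤ B := fun s => (hB s.1).2 (s.2 : ℕ)
  exact td_eval₂ _ h1 _ B h2 Δ

theorem irr_iff {n B : ℕ} (φ : O →+* F) (R : Fin n → MvPolynomial (Fin k ⊕ Fin e) O) {J : Type}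
    (Δ : J → MvPolynomial (Fin n × Fin (B + 1)) ℤ)
    (hΔ : ∀ (h : Fin n → Fin (B + 1) → Ω),
      Irreducible (bp h) ↔ ∃ j, MvPolynomial.aeval (fun ij => h ij.1 ij.2) (Δ j) ≠ 0)
    (hB : ∀ i, Fl B (cc φ R i)) (y v : Fin k → Ω) (ω : Fin e → Ω) :
    Irreducible (rg ((C : Ω →+* Polynomial Ω).comp ((algebraMap F Ω).comp φ)) R (pt y v)
      (fun i => C (ω i))) ↔ ∃ j, sp F y v ω (dd φ R (Δ j)) ≠ 0 := by
  have h1 : ∀ i, (MvPolynomial.eval₂ ((C : Ω →+* Polynomial Ω).comp ((algebraMap F Ω).comp φ))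
        (Sum.elim (pt y v) (fun i => C (ω i))) (R i)).natDegree ≤ B := by
    intro i
    rw [← cc_map]
    exact natDegree_map_le.trans (hB i).1
  unfold rg
  rw [bp_of (B := B) _ h1, hΔ]
  refine exists_congr fun j => ?_
  unfold dd
  rw [map_az, aeval_az]
  have h : ∀ ij : Fin n × Fin (B + 1), (MvPolynomial.eval₂ ((C : Ω →+* Polynomial Ω).comp
      ((algebraMap F Ω).comp φ)) (Sum.elim (pt y v) (fun i => C (ω i))) (R ij.1)).coeff
        (ij.2 : ℕ) = sp F y v ω ((cc φ R ij.1).coeff ij.2) := by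
    intro ij
    rw [← cc_map, coeff_map]
  simp only [h]

theorem disc_iff (φ : O →+* F) (h : Fin (e + 1) → MvPolynomial (Fin k) O)
    (D : MvPolynomial (Fin (e + 1)) ℤ) (y v : Fin k → Ω) (ω : Fin e → Ω) :
    MvPolynomial.aeval (ev ((C : Ω →+* Polynomial Ω).comp ((algebraMap F Ω).comp φ)) h (pt y v))
      D ≠ 0 ↔ ∃ l, sp F y v ω ((dD φ h D).coeff l) ≠ 0 := by
  rw [aeval_az, ← dD_map φ h D y v ω, Ne, Polynomial.ext_iff]
  push Not
  refine exists_congr fun l => ?_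
  rw [coeff_map, coeff_zero]

end generic

/-- **The density theorem.** -/
theorem main0 (hNF : S_NF) (hTSZ : S_TSZ) (hONE : S_ONEG) : S_FCHG := by
  classical
  intro O _ n e h 𝒢 _ R D hD
  obtain ⟨G, hG⟩ : ∃ G : ℕ, G = Fintype.card 𝒢 := ⟨_, rfl⟩
  have hG1 : 1 ≤ G := by rw [hG]; exact Fintype.card_pos
  obtain ⟨B, hBd⟩ : ∃ B, ∀ i, (R.R i).totalDegree ≤ B :=
    ⟨∑ i, (R.R i).totalDegree, fun i => Finset.single_le_sum
      (f := fun i => (R.R i).totalDegree) (fun _ _ => Nat.zero_le _) (Finset.mem_univ i)⟩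
  obtain ⟨dh, hdh⟩ : ∃ dh, ∀ i, (h i).totalDegree ≤ dh :=
    ⟨∑ i, (h i).totalDegree, fun i => Finset.single_le_sum
      (f := fun i => (h i).totalDegree) (fun _ _ => Nat.zero_le _) (Finset.mem_univ i)⟩
  obtain ⟨J, hJ, Δ, hΔ⟩ := hNF (Fintype.card 𝒢) B Fintype.card_pos
  have := Fintype.ofFinite J
  obtain ⟨D1, hD1⟩ : ∃ D1, ∀ j, (Δ j).totalDegree ≤ D1 :=
    ⟨∑ j, (Δ j).totalDegree, fun j => Finset.single_le_sum
      (f := fun j => (Δ j).totalDegree) (fun _ _ => Nat.zero_le _) (Finset.mem_univ j)⟩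
  obtain ⟨C₀, hC₀⟩ := hONE O n e h 𝒢 R D hD
  obtain ⟨B1, hB1⟩ : ∃ B1, B1 = D.totalDegree * dh + D1 * B := ⟨_, rfl⟩
  refine ⟨4 * B1 + 16 * C₀ ^ 2 + C₀ + 1, ?_⟩
  intro k Ω _ _ _ _ _ _ φ hq hex σ hσ
  have hB : ∀ i, Fl B (cc φ R.R i) := fun i => (cc_fl φ R.R i).mono (hBd i)
  have hchar : ringChar k ≤ Fintype.card k := by
    have h1 : ringChar k ∣ Fintype.card k := by
      apply ringChar.dvd
      exact FiniteField.cast_card_eq_zero k
    exact Nat.le_of_dvd Fintype.card_pos h1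
  obtain ⟨y0, v0, ω0, h00, h0⟩ := hex
  rw [irr_iff φ R.R Δ (hΔ Ω) hB] at h0
  rw [disc_iff φ h D y0 v0 ω0] at h00
  obtain ⟨j, hj⟩ := h0
  obtain ⟨l, hl⟩ := h00
  obtain ⟨P, hP⟩ : ∃ P : MM k n e, P = (dD φ h D).coeff l * dd φ R.R (Δ j) := ⟨_, rfl⟩
  have hne : P ≠ 0 := by
    intro h'
    have h1 : sp k y0 v0 ω0 P ≠ 0 := by
      rw [hP, map_mul]
      exact mul_ne_zero hl hj
    rw [h', map_zero] at h1
    exact h1 rfl
  have htd : P.totalDegree ≤ B1 := by
    rw [hB1, hP]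
    refine (MvPolynomial.totalDegree_mul _ _).trans (Nat.add_le_add ?_ ?_)
    · exact (dD_fl φ h D hdh).2 l
    · exact (dd_td φ R.R (Δ j) hB).trans (Nat.mul_le_mul_right _ (hD1 j))
  obtain ⟨ω, hω, hQ⟩ := hTSZ k Ω e (n + n) σ P hne (by omega)
  obtain ⟨Q, hQd⟩ : ∃ Q : MvPolynomial (Fin (n + n)) Ω, Q = MvPolynomial.eval₂
    (MvPolynomial.C.comp (algebraMap k Ω)) (Sum.elim MvPolynomial.X
      (fun i => MvPolynomial.C (ω i))) P := ⟨_, rfl⟩
  rw [← hQd] at hQ
  have hQtd : Q.totalDegree ≤ B1 := by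
    rw [hQd]
    have h1 := td_eval₂ (k := Ω) (τ := Fin (n + n)) (MvPolynomial.C.comp (algebraMap k Ω))
      (fun s => by simp) (Sum.elim MvPolynomial.X (fun i => MvPolynomial.C (ω i))) 1
      (fun s => by rcases s with s | s <;> simp) P
    rw [mul_one] at h1
    exact h1.trans htd
  have hQev : ∀ y v : Fin n → Ω, MvPolynomial.eval (Fin.append y v) Q = sp k y v ω P := by
    intro y v
    rw [hQd, MvPolynomial.eval₂_comp_left]
    unfold sp
    rw [MvPolynomial.coe_eval₂Hom]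
    congr 1
    · ext a
      simp
    · funext s
      rcases s with s | s <;> simp
  obtain ⟨Bd, hBd1, hBd2⟩ := sz (k := k) Q hQ
  -- the good lines
  have hgood : ∀ p ∉ Bd, (Fintype.card k : ℝ) ≤ (Fintype.card 𝒢 : ℝ) *
      (({x : k | HasTypeG Ω φ R (fun j => p.1 j + x * p.2 j) σ}.ncard : ℕ) : ℝ) +
        C₀ * √(Fintype.card k : ℝ) := by
    intro p hp
    have h2 := hBd2 p hp
    rw [hQev, hP, map_mul] at h2
    have hd1 := left_ne_zero_of_mul h2
    have hd2 := right_ne_zero_of_mul h2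
    have h1 := hC₀ k Ω φ p.1 p.2 σ ω (by omega) hσ hω (by
      have h3 := (disc_iff φ h D (fun j => algebraMap k Ω (p.1 j))
        (fun j => algebraMap k Ω (p.2 j)) ω).2 ⟨l, hd1⟩
      rw [aeval_az] at h3 ⊢
      intro h4
      apply h3
      have h5 := disc_map φ (algebraMap k Ω) h p.1 p.2 D
      rw [← h5, h4, Polynomial.map_zero]) ((irr_iff φ R.R Δ (hΔ Ω) hB _ _ _).2 ⟨j, hd2⟩)
    have h6 : ∀ x : k, (fun j => p.1 j + p.2 j * x) = fun j => p.1 j + x * p.2 j := by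
      intro x
      funext j
      rw [mul_comm x]
    simp only [h6] at h1
    exact h1
  -- summation
  obtain ⟨N, hN⟩ : ∃ N : (Fin n → k) × (Fin n → k) → ℕ, ∀ p, N p =
    {x : k | HasTypeG Ω φ R (fun j => p.1 j + x * p.2 j) σ}.ncard := ⟨_, fun _ => rfl⟩
  have hcnt := cnt (k := k) (n := n) (fun t => HasTypeG Ω φ R t σ)
  simp only [← hN] at hcnt hgood
  obtain ⟨NT, hNT⟩ : ∃ NT : ℕ, NT = {t : Fin n → k | HasTypeG Ω φ R t σ}.ncard := ⟨_, rfl⟩
  rw [← hNT] at hcnt ⊢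
  rw [← hG] at hgood ⊢
  obtain ⟨q, hqd⟩ : ∃ q : ℕ, q = Fintype.card k := ⟨_, rfl⟩
  rw [← hqd] at hcnt hBd1 hgood hchar ⊢
  have hq0 : 4 * B1 + 16 * C₀ ^ 2 + C₀ + 1 ≤ q := hq.trans hchar
  have hqpos : (0 : ℝ) < (q : ℝ) := by
    have : 0 < q := by omega
    exact_mod_cast this
  have hbad : 4 * (Bd.card : ℝ) ≤ (q : ℝ) ^ (n + n) := by
    have h1 : 4 * Bd.card * q ≤ q ^ (n + n) * q := by
      calc 4 * Bd.card * q = 4 * (Bd.card * q) := by ring
        _ ≤ 4 * (Q.totalDegree * q ^ (n + n)) := Nat.mul_le_mul_left _ hBd1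
        _ ≤ 4 * (B1 * q ^ (n + n)) := by gcongr
        _ = (4 * B1) * q ^ (n + n) := by ring
        _ ≤ q * q ^ (n + n) := Nat.mul_le_mul_right _ (by omega)
        _ = _ := by ring
    have h2 := Nat.le_of_mul_le_mul_right h1 (by omega)
    exact_mod_cast h2
  have hsq : 4 * ((C₀ : ℝ) * √(q : ℝ)) ≤ (q : ℝ) := by
    have h1 : ((4 * C₀ : ℕ) : ℝ) ≤ √(q : ℝ) := by
      apply Real.le_sqrt_of_sq_le
      have h2 : (4 * C₀) ^ 2 ≤ q := by nlinarith
      exact_mod_cast h2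
    push_cast at h1
    have h3 := Real.mul_self_sqrt hqpos.le
    nlinarith [Real.sqrt_nonneg (q : ℝ)]
  have hcard : ((Bdᶜ.card : ℕ) : ℝ) = (q : ℝ) ^ (n + n) - Bd.card := by
    have h1 : Bd.card + Bdᶜ.card = q ^ (n + n) := by
      rw [Finset.card_add_card_compl, Fintype.card_prod, Fintype.card_fun, Fintype.card_fin,
        ← pow_add, ← hqd]
    have h2 : (Bd.card : ℝ) + (Bdᶜ.card : ℝ) = (q : ℝ) ^ (n + n) := by exact_mod_cast h1
    linarith
  have hsum : ((q : ℝ) ^ (n + n) - Bd.card) * ((q : ℝ) - C₀ * √(q : ℝ)) ≤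
      (G : ℝ) * ((q : ℝ) ^ (n + 1) * NT) := by
    have h1 : ∑ p ∈ Bdᶜ, ((q : ℝ) - C₀ * √(q : ℝ)) ≤ ∑ p ∈ Bdᶜ, (G : ℝ) * (N p : ℝ) := by
      refine Finset.sum_le_sum fun p hp => ?_
      have := hgood p (Finset.mem_compl.1 hp)
      linarith
    have h2 : ∑ p ∈ Bdᶜ, (G : ℝ) * (N p : ℝ) ≤ ∑ p, (G : ℝ) * (N p : ℝ) :=
      Finset.sum_le_univ_sum_of_nonneg fun p => by positivity
    have h3 : ∑ p, (G : ℝ) * (N p : ℝ) = (G : ℝ) * ((q : ℝ) ^ (n + 1) * NT) := by
      rw [← Finset.mul_sum]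
      congr 1
      exact_mod_cast hcnt
    rw [Finset.sum_const, nsmul_eq_mul, hcard] at h1
    linarith
  have hfin : (q : ℝ) ^ n * (q : ℝ) ^ (n + 1) ≤ (2 * (G : ℝ) * NT) * (q : ℝ) ^ (n + 1) := by
    have h1 : (3 / 4 * (q : ℝ) ^ (n + n)) * (3 / 4 * (q : ℝ)) ≤
        ((q : ℝ) ^ (n + n) - Bd.card) * ((q : ℝ) - C₀ * √(q : ℝ)) := by
      refine mul_le_mul (by linarith) (by linarith) (by positivity) ?_
      have : (0 : ℝ) ≤ (q : ℝ) ^ (n + n) := by positivity
      linarith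
    have h2 : (3 / 4 * (q : ℝ) ^ (n + n)) * (3 / 4 * (q : ℝ)) =
        9 / 16 * ((q : ℝ) ^ n * (q : ℝ) ^ (n + 1)) := by ring
    have h3 : (0 : ℝ) ≤ (q : ℝ) ^ n * (q : ℝ) ^ (n + 1) := by positivity
    nlinarith
  have hlast := le_of_mul_le_mul_right hfin (by positivity)
  exact_mod_cast hlast

theorem main : S_ONEG → S_FCHG :=
  main0 Pool.Agent.N568.HX.NF.main Pool.Agent.N572.HX.TSZ.main

end Pool.Agent.N433.HG
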